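import Pool.Agent.H7.ML.Defs

/-! # Counting lemmas -/

set_option autoImplicit false

namespace Pool.Agent.H7.ML

open Finset Classical

theorem three_two (J t : ℕ) (h : J + 1 ≤ 3 * t) :
    3 * (J.choose t * 2 ^ (J - t)) ≤ (J + 1).choose t * 2 ^ (J + 1 - t) := by
  rcases Nat.lt_or_ge J t with hJ | hJ
  · rw [Nat.choose_eq_zero_of_lt hJ]
    simp
  · have h1 : J.choose t * (J + 1) = (J + 1).choose t * (J + 1 - t) := Nat.choose_mul_succ_eq J t
    have h2 : J + 1 - t = (J - t) + 1 := by omega
    rw [h2, pow_succ]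
    have h3 : 3 * J.choose t ≤ 2 * (J + 1).choose t := by
      have h4 : 0 < J + 1 - t := by omega
      apply Nat.le_of_mul_le_mul_right _ h4
      calc 3 * J.choose t * (J + 1 - t) = J.choose t * (3 * (J + 1 - t)) := by ring
        _ ≤ J.choose t * (2 * (J + 1)) := Nat.mul_le_mul_left _ (by omega)
        _ = 2 * (J.choose t * (J + 1)) := by ring
        _ = 2 * (J + 1).choose t * (J + 1 - t) := by rw [h1]; ring
    calc 3 * (J.choose t * 2 ^ (J - t)) = (3 * J.choose t) * 2 ^ (J - t) := by ring
      _ ≤ (2 * (J + 1).choose t) * 2 ^ (J - t) := Nat.mul_le_mul_right _ h3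
      _ = (J + 1).choose t * (2 ^ (J - t) * 2) := by ring

theorem three_pow (t j : ℕ) : ∀ n, j + n ≤ 3 * t →
    3 ^ n * (j.choose t * 2 ^ (j - t)) ≤ (j + n).choose t * 2 ^ (j + n - t) := by
  intro n
  induction n with
  | zero => intro _; simp
  | succ n ih =>
    intro h
    have h1 := ih (by omega)
    have h2 := three_two (j + n) t (by omega)
    calc 3 ^ (n + 1) * (j.choose t * 2 ^ (j - t)) = 3 * (3 ^ n * (j.choose t * 2 ^ (j - t))) := by
          rw [pow_succ]; ring
      _ ≤ 3 * ((j + n).choose t * 2 ^ (j + n - t)) := Nat.mul_le_mul_left _ h1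
      _ ≤ _ := h2

variable {V : Type} [Fintype V] {C : Type}

theorem cyl_card (L : V → Finset C) (hL : ∀ v, (L v).card = 3) (X : Finset V) (g : V → C)
    (hg : g ∈ Fintype.piFinset L) :
    ((Fintype.piFinset L).filter (fun f : V → C => ∀ v, v ∉ X → f v = g v)).card = 3 ^ X.card := by
  have hg' := Fintype.mem_piFinset.1 hg
  have h1 : (Fintype.piFinset L).filter (fun f : V → C => ∀ v, v ∉ X → f v = g v) =
      Fintype.piFinset (fun v => if v ∈ X then L v else {g v}) := by
    ext f
    simp only [mem_filter, Fintype.mem_piFinset]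
    constructor
    · rintro ⟨a, b⟩ v
      by_cases hv : v ∈ X
      · rw [if_pos hv]
        exact a v
      · rw [if_neg hv, mem_singleton]
        exact b v hv
    · intro a
      refine ⟨fun v => ?_, fun v hv => ?_⟩
      · have := a v
        by_cases hv : v ∈ X
        · rwa [if_pos hv] at this
        · rw [if_neg hv, mem_singleton] at this
          rw [this]
          exact hg' v
      · have := a v
        rwa [if_neg hv, mem_singleton] at this
  rw [h1, Fintype.card_piFinset]
  have h2 : ∀ v, (if v ∈ X then L v else {g v}).card = if v ∈ X then 3 else 1 := by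
    intro v
    by_cases hv : v ∈ X
    · rw [if_pos hv, if_pos hv, hL]
    · rw [if_neg hv, if_neg hv, card_singleton]
  simp only [h2]
  rw [Finset.prod_ite_mem, Finset.univ_inter, Finset.prod_const]

theorem inner_card (L : V → Finset C) (hL : ∀ v, (L v).card = 3) (T U : Finset V) (hTU : Disjoint T U)
    (f : V → C) (c : C) (i : ℕ) (hi : T.card ≤ 3 * i) :
    ((Fintype.piFinset L).filter (fun g : V → C => (∀ v, v ∉ T ∪ U → g v = f v) ∧ (∀ x ∈ U, g x = c) ∧
      (T.filter (fun x => g x = c)).card = i)).card ≤ T.card.choose i * 2 ^ (T.card - i) := by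
  obtain ⟨T', hT'⟩ : ∃ T', T' = T.filter (fun x => c ∈ L x) := ⟨_, rfl⟩
  have hT'T : T' ⊆ T := by rw [hT']; exact filter_subset _ _
  have hsub : (Fintype.piFinset L).filter (fun g : V → C => (∀ v, v ∉ T ∪ U → g v = f v) ∧ (∀ x ∈ U, g x = c) ∧
      (T.filter (fun x => g x = c)).card = i) ⊆ (T'.powersetCard i).biUnion (fun W =>
        Fintype.piFinset (fun v => if v ∈ W ∪ U then ({c} : Finset C) else if v ∈ T then (L v).erase c else {f v})) := by
    intro g hg
    rw [mem_filter] at hg
    obtain ⟨hgL, h1, h2, h3⟩ := hg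
    rw [Fintype.mem_piFinset] at hgL
    rw [mem_biUnion]
    refine ⟨T.filter (fun x => g x = c), mem_powersetCard.2 ⟨?_, h3⟩, ?_⟩
    · intro x hx
      rw [mem_filter] at hx
      rw [hT', mem_filter]
      refine ⟨hx.1, ?_⟩
      rw [← hx.2]
      exact hgL x
    rw [Fintype.mem_piFinset]
    intro v
    split_ifs with ha hb
    · rcases mem_union.1 ha with h | h
      · rw [mem_singleton]
        exact (mem_filter.1 h).2
      · rw [mem_singleton]
        exact h2 v h
    · rw [mem_erase]
      refine ⟨?_, hgL v⟩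
      intro hc
      exact ha (mem_union_left _ (mem_filter.2 ⟨hb, hc⟩))
    · rw [mem_singleton]
      apply h1
      rw [mem_union, not_or]
      exact ⟨hb, fun h => ha (mem_union_right _ h)⟩
  have hle : T'.card ≤ T.card := card_le_card hT'T
  have hfin : T'.card.choose i * (2 ^ (T'.card - i) * 3 ^ (T.card - T'.card)) ≤ T.card.choose i * 2 ^ (T.card - i) := by
    have h1 := three_pow i T'.card (T.card - T'.card) (by omega)
    have h2 : T'.card + (T.card - T'.card) = T.card := by omega
    rw [h2] at h1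
    calc T'.card.choose i * (2 ^ (T'.card - i) * 3 ^ (T.card - T'.card)) =
        3 ^ (T.card - T'.card) * (T'.card.choose i * 2 ^ (T'.card - i)) := by ring
      _ ≤ _ := h1
  refine (card_le_card hsub).trans (card_biUnion_le.trans (le_trans ?_ hfin))
  rw [← card_powersetCard, ← smul_eq_mul]
  apply Finset.sum_le_card_nsmul
  intro W hW
  obtain ⟨hW1, hW2⟩ := mem_powersetCard.1 hW
  rw [Fintype.card_piFinset]
  have h2 : ∀ v, (if v ∈ W ∪ U then ({c} : Finset C) else if v ∈ T then (L v).erase c else {f v}).card =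
      if v ∈ T \ W then (if c ∈ L v then 2 else 3) else 1 := by
    intro v
    by_cases hT : v ∈ T
    · have hU : v ∉ U := fun h => (Finset.disjoint_left.1 hTU hT) h
      by_cases hW' : v ∈ W
      · simp [hW', hT]
      · rw [if_neg (by rw [mem_union, not_or]; exact ⟨hW', hU⟩), if_pos hT,
          if_pos (mem_sdiff.2 ⟨hT, hW'⟩)]
        by_cases hc : c ∈ L v
        · rw [if_pos hc, card_erase_of_mem hc, hL]
        · rw [if_neg hc, erase_eq_of_notMem hc, hL]
    · have hW' : v ∉ W := fun h => hT (hT'T (hW1 h))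
      rw [if_neg (fun h => hT (mem_sdiff.1 h).1)]
      split_ifs <;> rfl
  simp only [h2]
  rw [Finset.prod_ite_mem, Finset.univ_inter, Finset.prod_ite, Finset.prod_const, Finset.prod_const]
  apply le_of_eq
  have e1 : (T \ W).filter (fun x => c ∈ L x) = T' \ W := by
    ext x
    simp only [hT', mem_filter, mem_sdiff]
    tauto
  have e2 : (T \ W).filter (fun x => ¬ c ∈ L x) = T \ T' := by
    ext x
    simp only [hT', mem_filter, mem_sdiff, not_and]
    constructor
    · rintro ⟨⟨a, b⟩, d⟩
      exact ⟨a, fun _ => d⟩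
    · rintro ⟨a, b⟩
      refine ⟨⟨a, fun h => ?_⟩, b a⟩
      have := hW1 h
      rw [hT', mem_filter] at this
      exact b a this.2
  rw [e1, e2, Finset.card_sdiff_of_subset hW1, Finset.card_sdiff_of_subset hT'T, hW2]

theorem double (L : V → Finset C) (hL : ∀ v, (L v).card = 3) (X : Finset V) (G E : (V → C) → Prop)
    (hG : ∀ f g : V → C, (∀ v, v ∉ X → f v = g v) → G f → G g) (N : ℕ)
    (hN : ∀ f : V → C, ((Fintype.piFinset L).filter (fun g : V → C => (∀ v, v ∉ X → g v = f v) ∧ E g)).card ≤ N) :
    ((Fintype.piFinset L).filter (fun f => G f ∧ E f)).card * 3 ^ X.card ≤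
      ((Fintype.piFinset L).filter (fun f => G f)).card * N := by
  have h1 : ((Fintype.piFinset L).filter (fun f => G f ∧ E f)).card * 3 ^ X.card =
      ∑ g ∈ (Fintype.piFinset L).filter (fun f => G f ∧ E f),
        ((Fintype.piFinset L).filter (fun f : V → C => ∀ v, v ∉ X → f v = g v)).card := by
    rw [sum_congr rfl (fun g hg => cyl_card L hL X g (mem_filter.1 hg).1), sum_const, smul_eq_mul]
  have h2 : ∑ g ∈ (Fintype.piFinset L).filter (fun f => G f ∧ E f),
      ((Fintype.piFinset L).filter (fun f : V → C => ∀ v, v ∉ X → f v = g v)).card =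
      ∑ f ∈ (Fintype.piFinset L).filter (fun f => G f),
        ((Fintype.piFinset L).filter (fun g : V → C => (∀ v, v ∉ X → g v = f v) ∧ E g)).card := by
    simp only [card_eq_sum_ones]
    apply Finset.sum_comm'
    intro g f
    simp only [mem_filter]
    constructor
    · rintro ⟨⟨p, a, b⟩, q, c⟩
      exact ⟨⟨p, fun v hv => (c v hv).symm, b⟩, q, hG g f (fun v hv => (c v hv).symm) a⟩
    · rintro ⟨⟨p, a, b⟩, q, c⟩
      exact ⟨⟨p, hG f g (fun v hv => (a v hv).symm) c, b⟩, q, fun v hv => (a v hv).symm⟩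
  rw [h1, h2, ← smul_eq_mul]
  exact Finset.sum_le_card_nsmul _ _ _ (fun f _ => hN f)

/-- the monochromatic out-degree inside `S` -/
noncomputable def ownS (A : V → V → Prop) (S : Finset V) (f : V → C) (v : V) : ℕ :=
  (S.filter (fun x => A v x ∧ f x = f v)).card

/-- majority condition inside `S` -/
def Good (A : V → V → Prop) (S : Finset V) (f : V → C) : Prop := ∀ v ∈ S, ownS A S f v ≤ outdeg A v / 2

noncomputable def NG (A : V → V → Prop) (L : V → Finset C) (S : Finset V) : ℕ :=
  ((Fintype.piFinset L).filter (fun f => Good A S f)).card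

theorem Good.mono {A : V → V → Prop} {S S' : Finset V} {f : V → C} (h : Good A S f) (hS : S' ⊆ S) :
    Good A S' f := fun v hv =>
  (card_le_card (filter_subset_filter _ hS)).trans (h v (hS hv))

theorem Good.congr {A : V → V → Prop} {S : Finset V} {f g : V → C} (h : Good A S f)
    (hfg : ∀ v ∈ S, f v = g v) : Good A S g := by
  intro v hv
  refine le_trans (le_of_eq ?_) (h v hv)
  unfold ownS
  congr 1
  apply filter_congr
  intro x hx
  rw [hfg v hv, hfg x hx]

/-- the vertices of `U` have the colour of `w`, and so have exactly `i` vertices of `T` -/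
def Ev (T U : Finset V) (w : V) (i : ℕ) (f : V → C) : Prop :=
  (∀ x ∈ U, f x = f w) ∧ (T.filter (fun x => f x = f w)).card = i

theorem tight (A : V → V → Prop) (L : V → Finset C) (hL : ∀ v, (L v).card = 3) (S T U : Finset V)
    (hTU : Disjoint T U) (hU : Disjoint U S) (w : V) (hw : w ∉ T ∪ U) (i : ℕ) (hi : T.card ≤ 3 * i) :
    ((Fintype.piFinset L).filter (fun f => Good A S f ∧ Ev T U w i f)).card *
      3 ^ (T ∪ U).card ≤ NG A L (S \ T) * (T.card.choose i * 2 ^ (T.card - i)) := by
  have h1 : ((Fintype.piFinset L).filter (fun f => Good A S f ∧ Ev T U w i f)).card ≤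
      ((Fintype.piFinset L).filter (fun f => Good A (S \ T) f ∧ Ev T U w i f)).card := by
    apply card_le_card
    intro f hf
    rw [mem_filter] at hf ⊢
    exact ⟨hf.1, hf.2.1.mono sdiff_subset, hf.2.2⟩
  refine (Nat.mul_le_mul_right _ h1).trans ?_
  refine double L hL (T ∪ U) (fun f => Good A (S \ T) f) (fun f => Ev T U w i f) (by
      intro f g hfg hf
      refine hf.congr (fun v hv => hfg v ?_)
      rw [mem_sdiff] at hv
      rw [mem_union, not_or]
      exact ⟨hv.2, fun h => (Finset.disjoint_left.1 hU h) hv.1⟩)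
    (T.card.choose i * 2 ^ (T.card - i)) (by
      intro f
      refine le_trans (card_le_card ?_) (inner_card L hL T U hTU f (f w) i hi)
      intro g hg
      rw [mem_filter] at hg
      obtain ⟨h0, h2, h3, h4⟩ := hg
      have h5 := h2 w hw
      rw [h5] at h3 h4
      rw [mem_filter]
      exact ⟨h0, h2, h3, h4⟩)

theorem iterate (A : V → V → Prop) (L : V → Finset C) (β : ℝ) (hβ : 0 ≤ β) (S : Finset V)
    (ih : ∀ S', S' ⊂ S → ∀ u, u ∉ S' → β * NG A L S' ≤ 3 * NG A L (insert u S')) :
    ∀ T, T ⊆ S → (NG A L (S \ T) : ℝ) * β ^ T.card ≤ 3 ^ T.card * NG A L S := by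
  intro T
  induction T using Finset.induction_on with
  | empty => simp
  | insert x T hx IH =>
    intro hT
    have hxS : x ∈ S := hT (mem_insert_self _ _)
    have hTS : T ⊆ S := fun y hy => hT (mem_insert_of_mem hy)
    have h1 := IH hTS
    have h2 : insert x (S \ insert x T) = S \ T := by
      ext y
      simp only [mem_insert, mem_sdiff, not_or]
      constructor
      · rintro (rfl | ⟨a, b, c⟩)
        · exact ⟨hxS, hx⟩
        · exact ⟨a, c⟩
      · rintro ⟨a, b⟩
        by_cases h : y = x
        · exact Or.inl h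
        · exact Or.inr ⟨a, h, b⟩
    have h3 : S \ insert x T ⊂ S := by
      rw [Finset.ssubset_iff_of_subset sdiff_subset]
      exact ⟨x, hxS, fun h => (mem_sdiff.1 h).2 (mem_insert_self _ _)⟩
    have h4 := ih _ h3 x (fun h => (mem_sdiff.1 h).2 (mem_insert_self _ _))
    rw [h2] at h4
    rw [card_insert_of_notMem hx, pow_succ, pow_succ]
    have h5 : 0 ≤ β ^ T.card := pow_nonneg hβ _
    calc (NG A L (S \ insert x T) : ℝ) * (β ^ T.card * β) = (β * NG A L (S \ insert x T)) * β ^ T.card := by ring
      _ ≤ (3 * NG A L (S \ T)) * β ^ T.card := mul_le_mul_of_nonneg_right h4 h5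
      _ = 3 * (NG A L (S \ T) * β ^ T.card) := by ring
      _ ≤ 3 * (3 ^ T.card * NG A L S) := by linarith
      _ = 3 ^ T.card * 3 * NG A L S := by ring

end Pool.Agent.H7.ML
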