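import Mathlib

/-! # Majority colourings from lists: degrees and monochromatic out-degrees -/

set_option autoImplicit false

namespace Pool.Agent.H7.ML

open Finset

variable {V : Type} [Fintype V] {C : Type}

open Classical in
/-- the out-degree of `v` in the digraph `A` -/
noncomputable def outdeg (A : V → V → Prop) (v : V) : ℕ := (univ.filter (fun u => A v u)).card

open Classical in
/-- the in-degree of `v` in the digraph `A` -/
noncomputable def indeg (A : V → V → Prop) (v : V) : ℕ := (univ.filter (fun u => A u v)).card

open Classical in
/-- the number of out-neighbours of `v` that have the colour of `v` -/
noncomputable def own (A : V → V → Prop) (f : V → C) (v : V) : ℕ :=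
  (univ.filter (fun u => A v u ∧ f u = f v)).card

open Classical in
/-- the number of colourings `f` with `f v` in the list `L v` for all `v` such that every vertex has at most half of its
out-neighbours in its own colour -/
noncomputable def majorityColourings (A : V → V → Prop) (L : V → Finset C) : ℕ :=
  ((Fintype.piFinset L).filter (fun f => ∀ v, 2 * own A f v ≤ outdeg A v)).card

end Pool.Agent.H7.ML
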