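import Pool.Agent.H7.ML.Step

/-! # The numerical part -/

set_option autoImplicit false

namespace Pool.Agent.H7.ML

open Finset

noncomputable def X (t : ℕ) : ℝ := (Nat.centralBinom t : ℝ) * 2 ^ t / 9 ^ t

theorem X_pos (t : ℕ) : 0 < X t := by
  unfold X
  have h : (0 : ℝ) < Nat.centralBinom t := by exact_mod_cast Nat.centralBinom_pos t
  positivity

theorem X_succ (t : ℕ) : X (t + 1) ≤ 8 / 9 * X t := by
  have h := Nat.succ_mul_centralBinom_succ t
  have h' : ((t : ℝ) + 1) * Nat.centralBinom (t + 1) = 2 * (2 * t + 1) * Nat.centralBinom t := by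
    exact_mod_cast h
  have hc : (0 : ℝ) ≤ Nat.centralBinom t := Nat.cast_nonneg _
  have h1 : (Nat.centralBinom (t + 1) : ℝ) ≤ 4 * Nat.centralBinom t := by
    have p : (0 : ℝ) < (t : ℝ) + 1 := by positivity
    apply le_of_mul_le_mul_left _ p
    rw [h']
    nlinarith
  unfold X
  rw [pow_succ, pow_succ]
  have p2 : (0 : ℝ) < 2 ^ t / 9 ^ t := by positivity
  calc (Nat.centralBinom (t + 1) : ℝ) * (2 ^ t * 2) / (9 ^ t * 9) =
      Nat.centralBinom (t + 1) * (2 ^ t / 9 ^ t) * (2 / 9) := by field_simp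
    _ ≤ (4 * Nat.centralBinom t) * (2 ^ t / 9 ^ t) * (2 / 9) := by
        apply mul_le_mul_of_nonneg_right _ (by norm_num)
        exact mul_le_mul_of_nonneg_right h1 p2.le
    _ = 8 / 9 * ((Nat.centralBinom t : ℝ) * 2 ^ t / 9 ^ t) := by ring

theorem q_odd (t : ℕ) : (2 * t + 1 - 1).choose ((2 * t + 1) / 2) * 2 ^ (2 * t + 1 - 1 - (2 * t + 1) / 2) =
    Nat.centralBinom t * 2 ^ t := by
  have h1 : (2 * t + 1) / 2 = t := by omega
  have h2 : 2 * t + 1 - 1 = 2 * t := by omega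
  have h3 : 2 * t - t = t := by omega
  rw [h1, h2, h3, Nat.centralBinom_eq_two_mul_choose]

theorem q_even (s : ℕ) : 4 * ((2 * (s + 1) - 1).choose (2 * (s + 1) / 2) * 2 ^ (2 * (s + 1) - 1 - 2 * (s + 1) / 2)) =
    Nat.centralBinom (s + 1) * 2 ^ (s + 1) := by
  have h1 : 2 * (s + 1) / 2 = s + 1 := by omega
  have h2 : 2 * (s + 1) - 1 = 2 * s + 1 := by omega
  have h3 : 2 * s + 1 - (s + 1) = s := by omega
  rw [h1, h2, h3, Nat.centralBinom_eq_two_mul_choose]
  have h4 : 2 * (s + 1) = 2 * s + 1 + 1 := by ring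
  have h6 : (2 * s + 1 + 1).choose (s + 1) = (2 * s + 1).choose s + (2 * s + 1).choose (s + 1) :=
    Nat.choose_succ_succ _ _
  have h7 := Nat.choose_symm_half s
  rw [h4, h6, h7, pow_succ]
  ring

theorem odd_le {r h : ℝ} (hr : 0 < r) {t : ℕ} (hh : X t * r ^ (2 * t) ≤ h) :
    ((Nat.centralBinom t * 2 ^ t : ℕ) : ℝ) ≤ h * (3 / r) ^ (2 * t) := by
  have e1 : (3 / r) ^ (2 * t) = 9 ^ t / r ^ (2 * t) := by
    rw [div_pow, pow_mul 3 2 t]
    norm_num
  have pr : 0 < r ^ (2 * t) := pow_pos hr _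
  rw [e1]
  calc ((Nat.centralBinom t * 2 ^ t : ℕ) : ℝ) = (X t * r ^ (2 * t)) * (9 ^ t / r ^ (2 * t)) := by
        unfold X
        push_cast
        field_simp
    _ ≤ h * (9 ^ t / r ^ (2 * t)) := mul_le_mul_of_nonneg_right hh (by positivity)

theorem even_le {r h : ℝ} (hr : 0 < r) {s : ℕ} (hh : 3 / 4 * X (s + 1) * r ^ (2 * s + 1) ≤ h) :
    ((Nat.centralBinom (s + 1) * 2 ^ (s + 1) : ℕ) : ℝ) / 4 ≤ h * (3 / r) ^ (2 * s + 1) := by
  have e1 : (3 / r) ^ (2 * s + 1) = 9 ^ (s + 1) / 3 / r ^ (2 * s + 1) := by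
    rw [div_pow, pow_succ 3 (2 * s), pow_mul 3 2 s, pow_succ 9 s]
    norm_num
    ring
  have pr : 0 < r ^ (2 * s + 1) := pow_pos hr _
  rw [e1]
  calc ((Nat.centralBinom (s + 1) * 2 ^ (s + 1) : ℕ) : ℝ) / 4 =
      (3 / 4 * X (s + 1) * r ^ (2 * s + 1)) * (9 ^ (s + 1) / 3 / r ^ (2 * s + 1)) := by
        unfold X
        push_cast
        field_simp
    _ ≤ h * (9 ^ (s + 1) / 3 / r ^ (2 * s + 1)) := mul_le_mul_of_nonneg_right hh (by positivity)

theorem Y_geo {r : ℝ} (hr : 0 < r) (hr2 : 8 / 9 * r ^ 2 ≤ (20 / 21) ^ 2) (s : ℕ) : ∀ n,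
    X (s + n) * r ^ (2 * (s + n)) ≤ X s * r ^ (2 * s) * (20 / 21) ^ (2 * n) := by
  intro n
  induction n with
  | zero => simp
  | succ n ih =>
    have h1 := X_succ (s + n)
    have h2 : 2 * (s + (n + 1)) = 2 * (s + n) + 2 := by ring
    have h3 : 2 * (n + 1) = 2 * n + 2 := by ring
    rw [h2, h3, pow_add, pow_add (20 / 21 : ℝ), ← add_assoc]
    have pr : 0 < r ^ (2 * (s + n)) := pow_pos hr _
    have pX := X_pos (s + n)
    calc X (s + n + 1) * (r ^ (2 * (s + n)) * r ^ 2) ≤ (8 / 9 * X (s + n)) * (r ^ (2 * (s + n)) * r ^ 2) :=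
          mul_le_mul_of_nonneg_right h1 (by positivity)
      _ = (X (s + n) * r ^ (2 * (s + n))) * (8 / 9 * r ^ 2) := by ring
      _ ≤ (X (s + n) * r ^ (2 * (s + n))) * (20 / 21) ^ 2 := mul_le_mul_of_nonneg_left hr2 (by positivity)
      _ ≤ (X s * r ^ (2 * s) * (20 / 21) ^ (2 * n)) * (20 / 21) ^ 2 :=
          mul_le_mul_of_nonneg_right ih (by norm_num)
      _ = X s * r ^ (2 * s) * ((20 / 21) ^ (2 * n) * (20 / 21) ^ 2) := by ring

theorem cb55 : Nat.centralBinom 55 = 98527218530093856775578873054432 := by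
  rw [Nat.centralBinom_eq_two_mul_choose, Nat.choose_eq_factorial_div_factorial (by norm_num)]
  decide +kernel

theorem cb59 : Nat.centralBinom 59 = 24356699707654619143838606602026720 := by
  rw [Nat.centralBinom_eq_two_mul_choose, Nat.choose_eq_factorial_div_factorial (by norm_num)]
  decide +kernel

variable {V : Type} [Fintype V] {C : Type}

theorem sum_bound (A : V → V → Prop) (u : V) (h : V → ℝ) (M : ℝ) (hM0 : 0 ≤ M)
    (hM : ∀ w, A w u → (indeg A u : ℝ) * h w ≤ M) :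
    (∑ w ∈ @Finset.filter V (fun w => A w u) (fun _ => Classical.propDecidable _) univ, h w) ≤ M := by
  classical
  obtain ⟨N, hN⟩ : ∃ N : Finset V, N = @Finset.filter V (fun w => A w u) (fun w => Classical.propDecidable _) univ :=
    ⟨_, rfl⟩
  have hcard : N.card = indeg A u := by
    rw [hN]
    rfl
  rw [← hN]
  rcases N.eq_empty_or_nonempty with h0 | h0
  · rw [h0, Finset.sum_empty]
    exact hM0
  · have hp : (0 : ℝ) < indeg A u := by
      rw [← hcard]
      exact_mod_cast Finset.card_pos.2 h0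
    have h1 : (indeg A u : ℝ) * ∑ w ∈ N, h w ≤ indeg A u * M := by
      rw [Finset.mul_sum]
      calc ∑ w ∈ N, (indeg A u : ℝ) * h w ≤ ∑ _w ∈ N, M := by
            apply Finset.sum_le_sum
            intro w hw
            rw [hN, Finset.mem_filter] at hw
            exact hM w hw.2
        _ = indeg A u * M := by rw [Finset.sum_const, nsmul_eq_mul, hcard]
    exact le_of_mul_le_mul_left h1 hp

/-- all out-degrees -/
theorem hq_all (A : V → V → Prop) (r : ℝ) (hr : 1 ≤ r) (hd2 : ∀ v, 2 ≤ outdeg A v) (v : V) :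
    (((outdeg A v - 1).choose (outdeg A v / 2) * 2 ^ (outdeg A v - 1 - outdeg A v / 2) : ℕ) : ℝ) ≤
      (X (outdeg A v / 2) * r ^ (2 * (outdeg A v / 2))) * (3 / r) ^ (outdeg A v - 1) := by
  have hr0 : 0 < r := by linarith
  have hv := hd2 v
  obtain ⟨d, hd⟩ : ∃ d, d = outdeg A v := ⟨_, rfl⟩
  rw [← hd] at hv ⊢
  rcases Nat.even_or_odd' d with ⟨t, rfl | rfl⟩
  · obtain ⟨s, rfl⟩ : ∃ s, t = s + 1 := ⟨t - 1, by omega⟩
    have h1 := q_even s
    have h2 : 2 * (s + 1) - 1 = 2 * s + 1 := by omega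
    have h6 : 2 * (s + 1) / 2 = s + 1 := by omega
    have h3 : (((2 * (s + 1) - 1).choose (2 * (s + 1) / 2) * 2 ^ (2 * (s + 1) - 1 - 2 * (s + 1) / 2) : ℕ) : ℝ) =
        ((Nat.centralBinom (s + 1) * 2 ^ (s + 1) : ℕ) : ℝ) / 4 := by
      rw [← h1]
      push_cast
      ring
    rw [h3]
    conv_rhs => rw [h2, h6]
    apply even_le hr0
    have h5 : 2 * (s + 1) = 2 * s + 1 + 1 := by ring
    rw [h5, pow_succ r (2 * s + 1)]
    have p3 : 0 < X (s + 1) * r ^ (2 * s + 1) := mul_pos (X_pos (s + 1)) (pow_pos hr0 _)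
    nlinarith
  · rw [q_odd]
    have h2 : 2 * t + 1 - 1 = 2 * t := by omega
    have h6 : (2 * t + 1) / 2 = t := by omega
    rw [h2, h6]
    exact odd_le hr0 le_rfl

/-- even out-degrees -/
theorem hq_even (A : V → V → Prop) (r : ℝ) (hr : 1 ≤ r) (hd2 : ∀ v, 2 ≤ outdeg A v)
    (hev : ∀ v, Even (outdeg A v)) (v : V) :
    (((outdeg A v - 1).choose (outdeg A v / 2) * 2 ^ (outdeg A v - 1 - outdeg A v / 2) : ℕ) : ℝ) ≤
      (3 / 4 * (X (outdeg A v / 2) * r ^ (2 * (outdeg A v / 2))) / r) * (3 / r) ^ (outdeg A v - 1) := by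
  have hr0 : 0 < r := by linarith
  have hv := hd2 v
  have he := hev v
  obtain ⟨d, hd⟩ : ∃ d, d = outdeg A v := ⟨_, rfl⟩
  rw [← hd] at hv he ⊢
  obtain ⟨t, ht⟩ := he
  obtain ⟨s, rfl⟩ : ∃ s, d = 2 * (s + 1) := ⟨t - 1, by omega⟩
  have h1 := q_even s
  have h2 : 2 * (s + 1) - 1 = 2 * s + 1 := by omega
  have h6 : 2 * (s + 1) / 2 = s + 1 := by omega
  have h3 : (((2 * (s + 1) - 1).choose (2 * (s + 1) / 2) * 2 ^ (2 * (s + 1) - 1 - 2 * (s + 1) / 2) : ℕ) : ℝ) =
      ((Nat.centralBinom (s + 1) * 2 ^ (s + 1) : ℕ) : ℝ) / 4 := by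
    rw [← h1]
    push_cast
    ring
  rw [h3]
  conv_rhs => rw [h2, h6]
  apply even_le hr0
  have h5 : 2 * (s + 1) = 2 * s + 1 + 1 := by ring
  rw [h5, pow_succ r (2 * s + 1), le_div_iff₀ hr0]
  apply le_of_eq
  ring

/-- **Main theorem**, lists of exactly three colours. -/
theorem main (A : V → V → Prop) (L : V → Finset C) (hL : ∀ v, (L v).card = 3) (hA : ∀ v, ¬ A v v) (k : ℕ)
    (hk : k = 118 ∨ (k = 110 ∧ ∀ v, Even (outdeg A v))) (hout : ∀ v, k ≤ outdeg A v)
    (hin : ∀ w u, A w u → (indeg A u : ℝ) ≤ k * (21 / 20) ^ (outdeg A w - k)) :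
    (3 - 3 / (k : ℝ)) ^ Fintype.card V ≤ (majorityColourings A L : ℝ) := by
  rcases hk with rfl | ⟨rfl, hev⟩
  · have hβ : 3 - 3 / ((118 : ℕ) : ℝ) = 3 / (118 / 117) := by norm_num
    rw [hβ]
    refine criterion A L hL hA (3 / (118 / 117))
      (fun v => X (outdeg A v / 2) * (118 / 117) ^ (2 * (outdeg A v / 2))) (by norm_num) (by norm_num)
      (fun v => by have := X_pos (outdeg A v / 2); positivity) (fun v => by have := hout v; omega)
      (hq_all A (118 / 117) (by norm_num) (fun v => by have := hout v; omega)) ?_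
    intro u
    have hY0 : 0 < X 59 * (118 / 117 : ℝ) ^ (2 * 59) := by have := X_pos 59; positivity
    have hbound : ∀ w, ∃ n, outdeg A w / 2 = 59 + n ∧ outdeg A w - 118 ≤ 2 * n + 1 ∧
        X (outdeg A w / 2) * (118 / 117 : ℝ) ^ (2 * (outdeg A w / 2)) ≤
          X 59 * (118 / 117) ^ (2 * 59) * (20 / 21) ^ (2 * n) := by
      intro w
      have := hout w
      refine ⟨outdeg A w / 2 - 59, by omega, by omega, ?_⟩
      have h1 := Y_geo (r := 118 / 117) (by norm_num) (by norm_num) 59 (outdeg A w / 2 - 59)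
      have h2 : 59 + (outdeg A w / 2 - 59) = outdeg A w / 2 := by omega
      rwa [h2] at h1
    have hsum := sum_bound A u (fun v => X (outdeg A v / 2) * (118 / 117 : ℝ) ^ (2 * (outdeg A v / 2)))
      (118 * (21 / 20) * (X 59 * (118 / 117) ^ (2 * 59))) (by positivity) (by
        intro w hw
        obtain ⟨n, _, h2, h3⟩ := hbound w
        have h4 := hin w u hw
        have h5 : (21 / 20 : ℝ) ^ (outdeg A w - 118) ≤ (21 / 20) ^ (2 * n + 1) :=
          pow_le_pow_right₀ (by norm_num) h2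
        have h6 : (indeg A u : ℝ) ≤ 118 * (21 / 20) ^ (2 * n + 1) := by
          refine h4.trans ?_
          push_cast
          linarith
        have h7 : (21 / 20 : ℝ) ^ (2 * n) * (20 / 21) ^ (2 * n) = 1 := by
          rw [← mul_pow]
          norm_num
        calc (indeg A u : ℝ) * (X (outdeg A w / 2) * (118 / 117 : ℝ) ^ (2 * (outdeg A w / 2))) ≤
            (118 * (21 / 20) ^ (2 * n + 1)) * (X 59 * (118 / 117) ^ (2 * 59) * (20 / 21) ^ (2 * n)) := by
              apply mul_le_mul h6 h3 _ (by positivity)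
              have := X_pos (outdeg A w / 2)
              positivity
          _ = 118 * (21 / 20) * (X 59 * (118 / 117) ^ (2 * 59)) * ((21 / 20 : ℝ) ^ (2 * n) * (20 / 21) ^ (2 * n)) := by
              rw [pow_succ]
              ring
          _ = _ := by rw [h7, mul_one])
    obtain ⟨n, _, _, h3⟩ := hbound u
    have h8 : (20 / 21 : ℝ) ^ (2 * n) ≤ 1 := pow_le_one₀ (by norm_num) (by norm_num)
    have h9 : X (outdeg A u / 2) * (118 / 117 : ℝ) ^ (2 * (outdeg A u / 2)) ≤ X 59 * (118 / 117) ^ (2 * 59) := by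
      refine h3.trans ?_
      have := mul_le_mul_of_nonneg_left h8 hY0.le
      linarith
    have h10 : (118 * (21 / 20) + 12 / (3 / (118 / 117))) * (X 59 * (118 / 117 : ℝ) ^ (2 * 59)) ≤
        3 - 3 / (118 / 117) := by
      unfold X
      rw [cb59]
      norm_num
    have h11 : (12 : ℝ) / (3 / (118 / 117)) * (X (outdeg A u / 2) * (118 / 117 : ℝ) ^ (2 * (outdeg A u / 2))) ≤
        12 / (3 / (118 / 117)) * (X 59 * (118 / 117) ^ (2 * 59)) :=
      mul_le_mul_of_nonneg_left h9 (by norm_num)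
    linarith
  · have hβ : 3 - 3 / ((110 : ℕ) : ℝ) = 3 / (110 / 109) := by norm_num
    rw [hβ]
    refine criterion A L hL hA (3 / (110 / 109))
      (fun v => 3 / 4 * (X (outdeg A v / 2) * (110 / 109) ^ (2 * (outdeg A v / 2))) / (110 / 109))
      (by norm_num) (by norm_num)
      (fun v => by have := X_pos (outdeg A v / 2); positivity) (fun v => by have := hout v; omega)
      (hq_even A (110 / 109) (by norm_num) (fun v => by have := hout v; omega) hev) ?_
    intro u
    have hY0 : 0 < X 55 * (110 / 109 : ℝ) ^ (2 * 55) := by have := X_pos 55; positivity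
    have hbound : ∀ w, ∃ n, outdeg A w / 2 = 55 + n ∧ outdeg A w - 110 ≤ 2 * n ∧
        3 / 4 * (X (outdeg A w / 2) * (110 / 109 : ℝ) ^ (2 * (outdeg A w / 2))) / (110 / 109) ≤
          3 / 4 * (X 55 * (110 / 109) ^ (2 * 55)) / (110 / 109) * (20 / 21) ^ (2 * n) := by
      intro w
      have h0 := hout w
      obtain ⟨t, ht⟩ := hev w
      refine ⟨outdeg A w / 2 - 55, by omega, by omega, ?_⟩
      have h1 := Y_geo (r := 110 / 109) (by norm_num) (by norm_num) 55 (outdeg A w / 2 - 55)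
      have h2 : 55 + (outdeg A w / 2 - 55) = outdeg A w / 2 := by omega
      rw [h2] at h1
      linarith
    have hsum := sum_bound A u
      (fun v => 3 / 4 * (X (outdeg A v / 2) * (110 / 109 : ℝ) ^ (2 * (outdeg A v / 2))) / (110 / 109))
      (110 * (3 / 4 * (X 55 * (110 / 109) ^ (2 * 55)) / (110 / 109))) (by positivity) (by
        intro w hw
        obtain ⟨n, _, h2, h3⟩ := hbound w
        have h4 := hin w u hw
        have h5 : (21 / 20 : ℝ) ^ (outdeg A w - 110) ≤ (21 / 20) ^ (2 * n) :=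
          pow_le_pow_right₀ (by norm_num) h2
        have h6 : (indeg A u : ℝ) ≤ 110 * (21 / 20) ^ (2 * n) := by
          refine h4.trans ?_
          push_cast
          linarith
        have h7 : (21 / 20 : ℝ) ^ (2 * n) * (20 / 21) ^ (2 * n) = 1 := by
          rw [← mul_pow]
          norm_num
        calc (indeg A u : ℝ) *
            (3 / 4 * (X (outdeg A w / 2) * (110 / 109 : ℝ) ^ (2 * (outdeg A w / 2))) / (110 / 109)) ≤
            (110 * (21 / 20) ^ (2 * n)) *
              (3 / 4 * (X 55 * (110 / 109) ^ (2 * 55)) / (110 / 109) * (20 / 21) ^ (2 * n)) := by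
              apply mul_le_mul h6 h3 _ (by positivity)
              have := X_pos (outdeg A w / 2)
              positivity
          _ = 110 * (3 / 4 * (X 55 * (110 / 109) ^ (2 * 55)) / (110 / 109)) *
              ((21 / 20 : ℝ) ^ (2 * n) * (20 / 21) ^ (2 * n)) := by ring
          _ = _ := by rw [h7, mul_one])
    obtain ⟨n, _, _, h3⟩ := hbound u
    have h8 : (20 / 21 : ℝ) ^ (2 * n) ≤ 1 := pow_le_one₀ (by norm_num) (by norm_num)
    have hZ0 : 0 ≤ 3 / 4 * (X 55 * (110 / 109 : ℝ) ^ (2 * 55)) / (110 / 109) := by positivity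
    have h9 : 3 / 4 * (X (outdeg A u / 2) * (110 / 109 : ℝ) ^ (2 * (outdeg A u / 2))) / (110 / 109) ≤
        3 / 4 * (X 55 * (110 / 109) ^ (2 * 55)) / (110 / 109) := by
      refine h3.trans ?_
      have := mul_le_mul_of_nonneg_left h8 hZ0
      linarith
    have h10 : (110 + 12 / (3 / (110 / 109))) * (3 / 4 * (X 55 * (110 / 109 : ℝ) ^ (2 * 55)) / (110 / 109)) ≤
        3 - 3 / (110 / 109) := by
      unfold X
      rw [cb55]
      norm_num
    have h11 : (12 : ℝ) / (3 / (110 / 109)) *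
        (3 / 4 * (X (outdeg A u / 2) * (110 / 109 : ℝ) ^ (2 * (outdeg A u / 2))) / (110 / 109)) ≤
        12 / (3 / (110 / 109)) * (3 / 4 * (X 55 * (110 / 109) ^ (2 * 55)) / (110 / 109)) :=
      mul_le_mul_of_nonneg_left h9 (by norm_num)
    linarith

/-- **Main theorem**, lists of at least three colours. -/
theorem main_list (A : V → V → Prop) (L : V → Finset C) (hL : ∀ v, 3 ≤ (L v).card) (hA : ∀ v, ¬ A v v) (k : ℕ)
    (hk : k = 118 ∨ (k = 110 ∧ ∀ v, Even (outdeg A v))) (hout : ∀ v, k ≤ outdeg A v)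
    (hin : ∀ w u, A w u → (indeg A u : ℝ) ≤ k * (21 / 20) ^ (outdeg A w - k)) :
    (3 - 3 / (k : ℝ)) ^ Fintype.card V ≤ (majorityColourings A L : ℝ) := by
  classical
  have hex : ∀ v, ∃ M : Finset C, M ⊆ L v ∧ M.card = 3 := fun v => Finset.exists_subset_card_eq (hL v)
  choose M hM1 hM2 using hex
  refine (main A M hM2 hA k hk hout hin).trans ?_
  have : majorityColourings A M ≤ majorityColourings A L := by
    unfold majorityColourings
    apply card_le_card
    intro f hf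
    rw [mem_filter] at hf ⊢
    refine ⟨?_, hf.2⟩
    rw [Fintype.mem_piFinset] at hf ⊢
    exact fun v => hM1 v (hf.1 v)
  exact_mod_cast this

end Pool.Agent.H7.ML
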