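import Pool.Agent.H7.ML.Count

/-! # The induction step -/

set_option autoImplicit false

namespace Pool.Agent.H7.ML

open Finset Classical

theorem mono {β : ℝ} (hβ0 : 0 ≤ β) (hβ3 : β ≤ 3) (t j : ℕ) : ∀ n, j + n ≤ 3 * t →
    ((j.choose t * 2 ^ (j - t) : ℕ) : ℝ) * β ^ n ≤ (((j + n).choose t * 2 ^ (j + n - t) : ℕ) : ℝ) := by
  intro n
  induction n with
  | zero => intro _; simp
  | succ n ih =>
    intro h
    have h1 := ih (by omega)
    have h2 := three_two (j + n) t (by omega)
    have h3 : (3 : ℝ) * (((j + n).choose t * 2 ^ (j + n - t) : ℕ) : ℝ) ≤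
        (((j + n + 1).choose t * 2 ^ (j + n + 1 - t) : ℕ) : ℝ) := by exact_mod_cast h2
    have h4 : (0 : ℝ) ≤ (((j + n).choose t * 2 ^ (j + n - t) : ℕ) : ℝ) := Nat.cast_nonneg _
    calc ((j.choose t * 2 ^ (j - t) : ℕ) : ℝ) * β ^ (n + 1) =
        (((j.choose t * 2 ^ (j - t) : ℕ) : ℝ) * β ^ n) * β := by rw [pow_succ]; ring
      _ ≤ (((j + n).choose t * 2 ^ (j + n - t) : ℕ) : ℝ) * β := mul_le_mul_of_nonneg_right h1 hβ0
      _ ≤ (((j + n).choose t * 2 ^ (j + n - t) : ℕ) : ℝ) * 3 := mul_le_mul_of_nonneg_left hβ3 h4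
      _ ≤ _ := by rw [mul_comm]; exact h3

/-- the tail of the binomial sum -/
theorem tail (d : ℕ) (hd : 1 ≤ d) :
    ∑ i ∈ Icc (d / 2 + 1) d, d.choose i * 2 ^ (d - i) ≤
      4 * ((d - 1).choose (d / 2) * 2 ^ (d - 1 - d / 2)) := by
  obtain ⟨t, ht⟩ : ∃ t, t = d / 2 := ⟨_, rfl⟩
  rw [← ht]
  have hhalf : ∀ i, t + 1 ≤ i → 2 * (d.choose (i + 1) * 2 ^ (d - (i + 1))) ≤ d.choose i * 2 ^ (d - i) := by
    intro i hi
    rcases Nat.lt_or_ge i d with h | h
    · have h1 : d - i = (d - (i + 1)) + 1 := by omega
      rw [h1, pow_succ]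
      have h2 : d.choose (i + 1) ≤ d.choose i := by
        have h3 := Nat.choose_succ_right_eq d i
        apply Nat.le_of_mul_le_mul_right (c := i + 1) _ (Nat.succ_pos i)
        rw [h3]
        exact Nat.mul_le_mul_left _ (by omega)
      calc 2 * (d.choose (i + 1) * 2 ^ (d - (i + 1))) = d.choose (i + 1) * (2 ^ (d - (i + 1)) * 2) := by ring
        _ ≤ _ := Nat.mul_le_mul_right _ h2
    · rw [Nat.choose_eq_zero_of_lt (by omega : d < i + 1)]
      simp
  have hsum : ∀ n, ∑ i ∈ range n, d.choose (t + 1 + i) * 2 ^ (d - (t + 1 + i)) +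
      2 * (d.choose (t + 1 + n) * 2 ^ (d - (t + 1 + n))) ≤ 2 * (d.choose (t + 1) * 2 ^ (d - (t + 1))) := by
    intro n
    induction n with
    | zero => simp
    | succ n ih =>
      rw [sum_range_succ]
      have := hhalf (t + 1 + n) (by omega)
      have e : t + 1 + (n + 1) = t + 1 + n + 1 := by ring
      rw [e]
      omega
  have h1 : ∑ i ∈ Icc (t + 1) d, d.choose i * 2 ^ (d - i) =
      ∑ i ∈ range (d - t), d.choose (t + 1 + i) * 2 ^ (d - (t + 1 + i)) := by
    have e : Icc (t + 1) d = Ico (t + 1) (d + 1) := by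
      ext x
      simp only [mem_Icc, mem_Ico]
      omega
    rw [e, Finset.sum_Ico_eq_sum_range]
    have e2 : d + 1 - (t + 1) = d - t := by omega
    rw [e2]
  rw [h1]
  have h2 := hsum (d - t)
  have h3 : d.choose (t + 1) ≤ 2 * (d - 1).choose t := by
    obtain ⟨e, rfl⟩ : ∃ e, d = e + 1 := ⟨d - 1, by omega⟩
    have h4 := Nat.add_one_mul_choose_eq e t
    apply Nat.le_of_mul_le_mul_right (c := t + 1) _ (Nat.succ_pos t)
    rw [show (e + 1).choose (t + 1) * (t + 1) = (e + 1) * e.choose t from h4.symm]
    calc (e + 1) * e.choose t ≤ (2 * (t + 1)) * e.choose t := Nat.mul_le_mul_right _ (by omega)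
      _ = 2 * (e + 1 - 1).choose t * (t + 1) := by rw [Nat.add_sub_cancel]; ring
  have h5 : d - (t + 1) = d - 1 - t := by omega
  rw [h5] at h2
  have h6 : d.choose (t + 1) * 2 ^ (d - 1 - t) ≤ 2 * (d - 1).choose t * 2 ^ (d - 1 - t) :=
    Nat.mul_le_mul_right _ h3
  have h7 : 2 * (d - 1).choose t * 2 ^ (d - 1 - t) = 2 * ((d - 1).choose t * 2 ^ (d - 1 - t)) := by ring
  omega

variable {V : Type} [Fintype V] {C : Type}

/-- the main step -/
theorem step (A : V → V → Prop) (L : V → Finset C) (hL : ∀ v, (L v).card = 3) (hA : ∀ v, ¬ A v v) (β : ℝ) (h : V → ℝ) (hβ0 : 0 < β) (hβ3 : β ≤ 3) (h0 : ∀ v, 0 ≤ h v)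
    (hd : ∀ v, 1 ≤ outdeg A v)
    (hq : ∀ v, (((outdeg A v - 1).choose (outdeg A v / 2) * 2 ^ (outdeg A v - 1 - outdeg A v / 2) : ℕ) : ℝ) ≤
      h v * β ^ (outdeg A v - 1))
    (hD : ∀ u, ∑ w ∈ univ.filter (fun w => A w u), h w + 12 / β * h u ≤ 3 - β) :
    ∀ S : Finset V, ∀ u, u ∉ S → β * NG A L S ≤ 3 * NG A L (insert u S) := by
  intro S
  induction S using Finset.strongInduction with
  | H S ih =>
    intro u hu
    have it := iterate A L β hβ0.le S (fun S' hS' v hv => ih S' hS' v hv)
    -- the bad sets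
    have hsub : (Fintype.piFinset L).filter (fun f => Good A S f) ⊆ ((Fintype.piFinset L).filter (fun f => Good A (insert u S) f) ∪
        (S.filter (fun w => A w u)).biUnion (fun w => (Fintype.piFinset L).filter (fun f => Good A S f ∧
          Ev (S.filter (fun x => A w x)) {u} w (outdeg A w / 2) f))) ∪
        (Icc (outdeg A u / 2 + 1) (outdeg A u)).biUnion (fun i => (Fintype.piFinset L).filter (fun f => Good A S f ∧
          Ev (S.filter (fun x => A u x)) ∅ u i f)) := by
      intro f hf
      have hfL := (mem_filter.1 hf).1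
      have hf' := (mem_filter.1 hf).2
      by_cases hg : Good A (insert u S) f
      · exact mem_union_left _ (mem_union_left _ (mem_filter.2 ⟨hfL, hg⟩))
      · unfold Good at hg
        push Not at hg
        obtain ⟨v, hv, hv2⟩ := hg
        rcases mem_insert.1 hv with rfl | hvS
        · apply mem_union_right
          have e : ownS A (insert v S) f v = ((S.filter (fun x => A v x)).filter (fun x => f x = f v)).card := by
            unfold ownS
            rw [filter_filter]
            congr 1
            ext x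
            simp only [mem_filter, mem_insert]
            constructor
            · rintro ⟨rfl | hx, h1, h2⟩
              · exact absurd h1 (hA x)
              · exact ⟨hx, h1, h2⟩
            · rintro ⟨hx, h1, h2⟩
              exact ⟨Or.inr hx, h1, h2⟩
          rw [mem_biUnion]
          refine ⟨((S.filter (fun x => A v x)).filter (fun x => f x = f v)).card, ?_, ?_⟩
          · rw [mem_Icc]
            refine ⟨by rw [← e]; exact hv2, ?_⟩
            exact (card_le_card (filter_subset _ _)).trans (card_le_card (filter_subset_filter _ (subset_univ _)))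
          · rw [mem_filter]
            exact ⟨hfL, hf', fun x hx => absurd hx (notMem_empty x), rfl⟩
        · apply mem_union_left
          apply mem_union_right
          have h1 := hf' v hvS
          by_cases hvu : A v u ∧ f u = f v
          · have e : ownS A (insert u S) f v = ownS A S f v + 1 := by
              unfold ownS
              rw [filter_insert, if_pos hvu, card_insert_of_notMem (fun h => hu (mem_filter.1 h).1)]
            rw [mem_biUnion]
            refine ⟨v, mem_filter.2 ⟨hvS, hvu.1⟩, mem_filter.2 ⟨hfL, hf', ?_, ?_⟩⟩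
            · intro x hx
              rw [mem_singleton.1 hx]
              exact hvu.2
            · rw [filter_filter]
              have : ownS A S f v = outdeg A v / 2 := by omega
              exact this
          · exfalso
            have e : ownS A (insert u S) f v = ownS A S f v := by
              unfold ownS
              rw [filter_insert, if_neg hvu]
            omega
    have hcard : (NG A L S : ℝ) ≤ NG A L (insert u S) +
        ∑ w ∈ S.filter (fun w => A w u), (((Fintype.piFinset L).filter (fun f => Good A S f ∧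
          Ev (S.filter (fun x => A w x)) {u} w (outdeg A w / 2) f)).card : ℝ) +
        ∑ i ∈ Icc (outdeg A u / 2 + 1) (outdeg A u), (((Fintype.piFinset L).filter (fun f => Good A S f ∧
          Ev (S.filter (fun x => A u x)) ∅ u i f)).card : ℝ) := by
      have h1 := (card_le_card hsub).trans ((card_union_le _ _).trans (Nat.add_le_add
        ((card_union_le _ _).trans (Nat.add_le_add_left card_biUnion_le _)) card_biUnion_le))
      exact_mod_cast h1
    have hNG : (0 : ℝ) ≤ NG A L S := Nat.cast_nonneg _
    -- bound for w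
    have hw : ∀ w ∈ S.filter (fun w => A w u), 3 * (((Fintype.piFinset L).filter (fun f => Good A S f ∧
          Ev (S.filter (fun x => A w x)) {u} w (outdeg A w / 2) f)).card : ℝ) ≤
        NG A L S * h w := by
      intro w hw
      rw [mem_filter] at hw
      obtain ⟨hwS, hwu⟩ := hw
      obtain ⟨T, hT⟩ : ∃ T, T = S.filter (fun x => A w x) := ⟨_, rfl⟩
      have huT : u ∉ T := fun h => hu (by rw [hT] at h; exact (mem_filter.1 h).1)
      have hTS : T ⊆ S := by rw [hT]; exact filter_subset _ _
      have hTd : T.card + 1 ≤ outdeg A w := by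
        rw [← card_insert_of_notMem huT]
        apply card_le_card
        intro x hx
        rw [mem_filter]
        refine ⟨mem_univ _, ?_⟩
        rcases mem_insert.1 hx with rfl | hx
        · exact hwu
        · rw [hT] at hx
          exact (mem_filter.1 hx).2
      have h1 := tight A L hL S T {u} (Finset.disjoint_singleton_right.2 huT)
        (Finset.disjoint_singleton_left.2 hu) w (by
          rw [mem_union, not_or, mem_singleton]
          refine ⟨fun h => ?_, fun h => hu (h ▸ hwS)⟩
          rw [hT] at h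
          exact hA w (mem_filter.1 h).2) (outdeg A w / 2) (by omega)
      rw [← hT]
      obtain ⟨B, hB⟩ : ∃ B : ℕ, B = ((Fintype.piFinset L).filter (fun f => Good A S f ∧ Ev T {u} w (outdeg A w / 2) f)).card := ⟨_, rfl⟩
      rw [← hB] at h1 ⊢
      rw [card_union_of_disjoint (Finset.disjoint_singleton_right.2 huT), card_singleton, pow_succ] at h1
      have h2 := it T hTS
      have h3 := mono hβ0.le hβ3 (outdeg A w / 2) T.card (outdeg A w - 1 - T.card) (by omega)
      have e1 : T.card + (outdeg A w - 1 - T.card) = outdeg A w - 1 := by omega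
      rw [e1] at h3
      have h4 := h3.trans (hq w)
      have h5 : β ^ (outdeg A w - 1) = β ^ T.card * β ^ (outdeg A w - 1 - T.card) := by
        rw [← pow_add, e1]
      rw [h5, ← mul_assoc] at h4
      have h6 := le_of_mul_le_mul_right h4 (pow_pos hβ0 _)
      obtain ⟨c, hc⟩ : ∃ c : ℕ, c = T.card.choose (outdeg A w / 2) * 2 ^ (T.card - outdeg A w / 2) := ⟨_, rfl⟩
      rw [← hc] at h1 h6
      have h7 : (B : ℝ) * (3 ^ T.card * 3) ≤ NG A L (S \ T) * c := by exact_mod_cast h1
      have p3 : (0 : ℝ) < 3 ^ T.card := by positivity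
      have pβ : (0 : ℝ) < β ^ T.card := pow_pos hβ0 _
      have hc0 : (0 : ℝ) ≤ c := Nat.cast_nonneg _
      have h8 : (3 * (B : ℝ)) * (3 ^ T.card * β ^ T.card) ≤ (NG A L S * h w) * (3 ^ T.card * β ^ T.card) := by
        calc (3 * (B : ℝ)) * (3 ^ T.card * β ^ T.card) = ((B : ℝ) * (3 ^ T.card * 3)) * β ^ T.card := by ring
          _ ≤ (NG A L (S \ T) * c) * β ^ T.card := mul_le_mul_of_nonneg_right h7 pβ.le
          _ = (NG A L (S \ T) * β ^ T.card) * c := by ring
          _ ≤ (3 ^ T.card * NG A L S) * c := mul_le_mul_of_nonneg_right h2 hc0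
          _ ≤ (3 ^ T.card * NG A L S) * (h w * β ^ T.card) := mul_le_mul_of_nonneg_left h6 (by positivity)
          _ = (NG A L S * h w) * (3 ^ T.card * β ^ T.card) := by ring
      exact le_of_mul_le_mul_right h8 (by positivity)
    -- bound for u
    have hub : 3 * ∑ i ∈ Icc (outdeg A u / 2 + 1) (outdeg A u), (((Fintype.piFinset L).filter (fun f => Good A S f ∧
          Ev (S.filter (fun x => A u x)) ∅ u i f)).card : ℝ) ≤
        NG A L S * (12 / β * h u) := by
      obtain ⟨T, hT⟩ : ∃ T, T = S.filter (fun x => A u x) := ⟨_, rfl⟩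
      have huT : u ∉ T := fun h => hu (by rw [hT] at h; exact (mem_filter.1 h).1)
      have hTS : T ⊆ S := by rw [hT]; exact filter_subset _ _
      rw [← hT]
      have h2 := it T hTS
      have hTd : T.card ≤ outdeg A u := by
        apply card_le_card
        intro x hx
        rw [mem_filter]
        rw [hT] at hx
        exact ⟨mem_univ _, (mem_filter.1 hx).2⟩
      have p3 : (0 : ℝ) < 3 ^ T.card := by positivity
      have pβ : (0 : ℝ) < β ^ T.card := pow_pos hβ0 _
      have hi : ∀ i ∈ Icc (outdeg A u / 2 + 1) (outdeg A u), (((Fintype.piFinset L).filter (fun f => Good A S f ∧ Ev T ∅ u i f)).card : ℝ) *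
            β ^ (outdeg A u) ≤ NG A L S * (((outdeg A u).choose i * 2 ^ (outdeg A u - i) : ℕ) : ℝ) := by
        intro i hi
        rw [mem_Icc] at hi
        have h1 := tight A L hL S T ∅ (disjoint_bot_right) (disjoint_bot_left) u (by
          rw [union_empty]
          exact huT) i (by omega)
        obtain ⟨B, hB⟩ : ∃ B : ℕ, B = ((Fintype.piFinset L).filter (fun f => Good A S f ∧ Ev T ∅ u i f)).card := ⟨_, rfl⟩
        rw [← hB] at h1 ⊢
        rw [union_empty] at h1
        have h3 := mono hβ0.le hβ3 i T.card (outdeg A u - T.card) (by omega)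
        have e1 : T.card + (outdeg A u - T.card) = outdeg A u := by omega
        rw [e1] at h3
        obtain ⟨c, hc⟩ : ∃ c : ℕ, c = T.card.choose i * 2 ^ (T.card - i) := ⟨_, rfl⟩
        obtain ⟨c', hc'⟩ : ∃ c' : ℕ, c' = (outdeg A u).choose i * 2 ^ (outdeg A u - i) := ⟨_, rfl⟩
        rw [← hc] at h1 h3
        rw [← hc'] at h3 ⊢
        have h7 : (B : ℝ) * 3 ^ T.card ≤ NG A L (S \ T) * c := by exact_mod_cast h1
        have hc0 : (0 : ℝ) ≤ c := Nat.cast_nonneg _
        have e2 : β ^ (outdeg A u) = β ^ T.card * β ^ (outdeg A u - T.card) := by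
          rw [← pow_add, e1]
        have pr : (0 : ℝ) ≤ β ^ (outdeg A u - T.card) := pow_nonneg hβ0.le _
        have h8 : ((B : ℝ) * β ^ (outdeg A u)) * 3 ^ T.card ≤ (NG A L S * (c' : ℝ)) * 3 ^ T.card := by
          calc ((B : ℝ) * β ^ (outdeg A u)) * 3 ^ T.card =
              ((B : ℝ) * 3 ^ T.card) * (β ^ T.card * β ^ (outdeg A u - T.card)) := by rw [e2]; ring
            _ ≤ (NG A L (S \ T) * c) * (β ^ T.card * β ^ (outdeg A u - T.card)) :=
                mul_le_mul_of_nonneg_right h7 (mul_nonneg pβ.le pr)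
            _ = (NG A L (S \ T) * β ^ T.card) * (c * β ^ (outdeg A u - T.card)) := by ring
            _ ≤ (3 ^ T.card * NG A L S) * (c * β ^ (outdeg A u - T.card)) :=
                mul_le_mul_of_nonneg_right h2 (mul_nonneg hc0 pr)
            _ ≤ (3 ^ T.card * NG A L S) * c' := mul_le_mul_of_nonneg_left h3 (by positivity)
            _ = (NG A L S * (c' : ℝ)) * 3 ^ T.card := by ring
        exact le_of_mul_le_mul_right h8 p3
      have h9 := Finset.sum_le_sum hi
      rw [← Finset.sum_mul, ← Finset.mul_sum] at h9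
      have h10 : (∑ i ∈ Icc (outdeg A u / 2 + 1) (outdeg A u),
          (((outdeg A u).choose i * 2 ^ (outdeg A u - i) : ℕ) : ℝ)) ≤
          4 * (h u * β ^ (outdeg A u - 1)) := by
        have h11 := tail (outdeg A u) (hd u)
        have h12 : (∑ i ∈ Icc (outdeg A u / 2 + 1) (outdeg A u),
          (((outdeg A u).choose i * 2 ^ (outdeg A u - i) : ℕ) : ℝ)) ≤
          4 * (((outdeg A u - 1).choose (outdeg A u / 2) * 2 ^ (outdeg A u - 1 - outdeg A u / 2) : ℕ) : ℝ) := by
          exact_mod_cast h11
        have := hq u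
        linarith
      have e3 : β ^ (outdeg A u) = β ^ (outdeg A u - 1) * β := by
        rw [← pow_succ]
        congr 1
        have := hd u
        omega
      have pb : (0 : ℝ) < β ^ (outdeg A u - 1) := pow_pos hβ0 _
      rw [e3] at h9
      have h13 := h9.trans (mul_le_mul_of_nonneg_left h10 hNG)
      obtain ⟨Sg, hSg⟩ : ∃ Sg : ℝ, Sg = ∑ i ∈ Icc (outdeg A u / 2 + 1) (outdeg A u), (((Fintype.piFinset L).filter (fun f => Good A S f ∧ Ev T ∅ u i f)).card : ℝ) := ⟨_, rfl⟩
      rw [← hSg] at h13 ⊢
      have h14 : (Sg * β) * β ^ (outdeg A u - 1) ≤ (NG A L S * (4 * h u)) * β ^ (outdeg A u - 1) := by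
        calc (Sg * β) * β ^ (outdeg A u - 1) = Sg * (β ^ (outdeg A u - 1) * β) := by ring
          _ ≤ NG A L S * (4 * (h u * β ^ (outdeg A u - 1))) := h13
          _ = _ := by ring
      have h15 := le_of_mul_le_mul_right h14 pb
      have h16 : NG A L S * (12 / β * h u) = (3 * (NG A L S * (4 * h u))) / β := by
        field_simp
        ring
      rw [h16, le_div_iff₀ hβ0]
      linarith
    -- assembly
    have hsumw := Finset.sum_le_sum hw
    rw [← Finset.mul_sum, ← Finset.mul_sum] at hsumw
    have hin : ∑ w ∈ S.filter (fun w => A w u), h w ≤ ∑ w ∈ univ.filter (fun w => A w u), h w :=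
      Finset.sum_le_sum_of_subset_of_nonneg (filter_subset_filter _ (subset_univ _)) (fun v _ _ => h0 v)
    have h20 : NG A L S * ∑ w ∈ S.filter (fun w => A w u), h w ≤
        NG A L S * ∑ w ∈ univ.filter (fun w => A w u), h w := mul_le_mul_of_nonneg_left hin hNG
    have h21 : NG A L S * (∑ w ∈ univ.filter (fun w => A w u), h w + 12 / β * h u) ≤ NG A L S * (3 - β) :=
      mul_le_mul_of_nonneg_left (hD u) hNG
    nlinarith [hcard, hsumw, hub, h20, h21]

/-- the criterion -/
theorem criterion (A : V → V → Prop) (L : V → Finset C) (hL : ∀ v, (L v).card = 3) (hA : ∀ v, ¬ A v v) (β : ℝ) (h : V → ℝ) (hβ0 : 0 < β) (hβ3 : β ≤ 3) (h0 : ∀ v, 0 ≤ h v)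
    (hd : ∀ v, 1 ≤ outdeg A v)
    (hq : ∀ v, (((outdeg A v - 1).choose (outdeg A v / 2) * 2 ^ (outdeg A v - 1 - outdeg A v / 2) : ℕ) : ℝ) ≤
      h v * β ^ (outdeg A v - 1))
    (hD : ∀ u, ∑ w ∈ univ.filter (fun w => A w u), h w + 12 / β * h u ≤ 3 - β) :
    β ^ Fintype.card V ≤ (majorityColourings A L : ℝ) := by
  have h1 := iterate A L β hβ0.le univ (fun S' _ u hu => step A L hL hA β h hβ0 hβ3 h0 hd hq hD S' u hu) univ
    (subset_univ _)
  have h2 : NG A L (univ \ univ : Finset V) = 3 ^ Fintype.card V := by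
    rw [sdiff_self]
    unfold NG
    have : (Fintype.piFinset L).filter (fun f : V → C => Good A (⊥ : Finset V) f) = Fintype.piFinset L := by
      apply filter_true_of_mem
      intro f _ v hv
      exact absurd hv (notMem_empty v)
    rw [this, Fintype.card_piFinset]
    simp only [hL]
    rw [Finset.prod_const, card_univ]
  have h3 : NG A L (univ : Finset V) = majorityColourings A L := by
    unfold NG majorityColourings
    congr 1
    apply filter_congr
    intro f _
    unfold Good ownS own
    constructor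
    · intro h v
      have := h v (mem_univ v)
      omega
    · intro h v _
      have := h v
      omega
  rw [h2, h3, card_univ] at h1
  push_cast at h1
  have h4 : (0 : ℝ) < 3 ^ Fintype.card V := by positivity
  exact le_of_mul_le_mul_left h1 h4

end Pool.Agent.H7.ML
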